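import Mathlib

set_option autoImplicit false

namespace Pool.Agent.H.MP_39b482_gt

open Set Topology Filter Metric

variable {n : ℕ} {M : Type} [TopologicalSpace M] [T2Space M]

theorem step (e : OpenPartialHomeomorph M (Fin n → ℝ)) {B : Set M} (b : IsCompact B)
    (s : B ⊆ e.source) (V : ℕ → Set M) (o : ∀ i, IsOpen (V i)) (c : ∀ p, ∃ i, p ∈ V i) :
    ∃ W : ℕ → Set M, (∀ i, IsOpen (W i)) ∧ (∀ p, ∃ i, p ∈ W i) ∧ (∀ i, W i ⊆ V i ∧ V i \ B ⊆ W i) ∧
      ∀ p ∈ B, ∃ g : (Fin n → Bool) → ℕ, ∀ i, p ∈ W i → i ∈ range g := by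
  obtain ⟨δ, d, h⟩ := lebesgue_number_lemma_of_metric (b.image_of_continuousOn
    (e.continuousOn.mono s)) (fun i => e.isOpen_image_source_inter (o i)) (by
      rintro _ ⟨p, hp, rfl⟩
      exact (c p).elim fun i k => mem_iUnion.2 ⟨i, p, ⟨s hp, k⟩, rfl⟩)
  have d' := half_pos d
  obtain ⟨a, ha⟩ : ∃ a : (Fin n → ℤ) → ℕ, ∀ z, ∀ p ∈ B, e p ∈ ball (fun k => δ / 2 * z k) (δ / 2) →
      p ∈ V (a z) := by
    refine (Classical.skolem (p := fun z i => ∀ p ∈ B, e p ∈ ball (fun k => δ / 2 *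
      (z : Fin n → ℤ) k) (δ / 2) → p ∈ V i)).1 fun z => ?_
    by_cases k : ∃ q ∈ B, e q ∈ ball (fun k => δ / 2 * z k) (δ / 2)
    · obtain ⟨q, x, y⟩ := k
      obtain ⟨i, k⟩ := h _ ⟨q, x, rfl⟩
      refine ⟨i, fun p u v => ?_⟩
      obtain ⟨r, w, t⟩ := k (show e p ∈ ball (e q) δ from (dist_triangle_right _ _ _).trans_lt
        (by linarith [mem_ball.1 v, mem_ball.1 y]))
      exact e.injOn w.1 (s u) t ▸ w.2
    · exact ⟨0, fun p u v => (k ⟨p, u, v⟩).elim⟩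
  refine ⟨fun i => V i ∩ (Bᶜ ∪ e.source ∩ e ⁻¹' ⋃ z ∈ a ⁻¹' {i}, ball (fun k => δ / 2 * z k) (δ / 2)),
    fun i => (o i).inter (b.isClosed.isOpen_compl.union (e.isOpen_inter_preimage
      (isOpen_biUnion fun _ _ => isOpen_ball))), fun p => ?_,
    fun i => ⟨inter_subset_left, fun p h => ⟨h.1, .inl h.2⟩⟩, fun p hp =>
    ⟨fun b => a fun k => ⌊e p k / (δ / 2)⌋ + if b k then 1 else 0, fun i ⟨_, k⟩ => ?_⟩⟩
  · by_cases hp : p ∈ B
    · have : e p ∈ ball (fun k => δ / 2 * (⌊e p k / (δ / 2)⌋ : ℤ)) (δ / 2) :=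
        (dist_pi_lt_iff d').2 fun k => by
          have x := (le_div_iff₀ d').1 (Int.floor_le (e p k / (δ / 2)))
          have y := (div_lt_iff₀ d').1 (Int.lt_floor_add_one (e p k / (δ / 2)))
          rw [Real.dist_eq, abs_lt]
          constructor <;> linarith
      exact ⟨_, ha _ p hp this, .inr ⟨s hp, mem_biUnion rfl this⟩⟩
    · exact (c p).imp fun i k => ⟨k, .inl hp⟩
  · obtain ⟨z, rfl, w⟩ := mem_iUnion₂.1 (k.resolve_left (not_not.2 hp)).2
    refine ⟨fun k => z k ≠ ⌊e p k / (δ / 2)⌋, congrArg a (funext fun k => ?_)⟩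
    have x := abs_lt.1 ((dist_pi_lt_iff d').1 w k)
    have u : ⌊e p k / (δ / 2)⌋ < z k + 1 := Int.floor_lt.2 (by
      rw [div_lt_iff₀ d']; push_cast; linarith [x.2])
    have v : z k - 1 ≤ ⌊e p k / (δ / 2)⌋ := Int.le_floor.2 (by
      rw [le_div_iff₀ d']; push_cast; linarith [x.1])
    simp only [decide_eq_true_eq]
    split_ifs <;> omega

theorem cov [SecondCountableTopology M] [LocallyCompactSpace M] [Nonempty M]
    [ChartedSpace (EuclideanSpace ℝ (Fin n)) M] :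
    ∃ (e : ℕ → OpenPartialHomeomorph M (Fin n → ℝ)) (A V : ℕ → Set M),
      (∀ i, IsCompact (A i) ∧ A i ⊆ (e i).source ∧ IsOpen (V i) ∧ V i ⊆ A i) ∧
      ∀ p, (∃ i, p ∈ V i) ∧ ∃ g : (Fin n → Bool) → ℕ, ∀ i, p ∈ V i → i ∈ range g := by
  choose N n1 n2 n3 using fun x : M => exists_compact_subset
    (chartAt (EuclideanSpace ℝ (Fin n)) x).open_source (mem_chart_source _ x)
  obtain ⟨s, s1, s2⟩ := TopologicalSpace.countable_cover_nhds fun x =>
    isOpen_interior.mem_nhds (n2 x)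
  obtain ⟨c, rfl⟩ := s1.exists_eq_range (by
    obtain ⟨x, h, -⟩ := mem_iUnion₂.1 (s2.ge (mem_univ (Classical.arbitrary M)))
    exact ⟨x, h⟩)
  have c1 : ∀ p, ∃ i, p ∈ interior (N (c i)) := fun p => by simpa using s2.ge (mem_univ p)
  let e := fun i => (chartAt (EuclideanSpace ℝ (Fin n)) (c i)).transHomeomorph
    (EuclideanSpace.equiv (Fin n) ℝ).toHomeomorph
  choose F f1 f2 f3 f4 using fun j (V : {V : ℕ → Set M // (∀ i, IsOpen (V i)) ∧ ∀ p, ∃ i, p ∈ V i}) =>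
    step (e j) ((n1 (c j)).diff (isOpen_biUnion (s := Iio j) fun i _ =>
      isOpen_interior (s := N (c i)))) (diff_subset.trans (n3 _)) V.1 V.2.1 V.2.2
  obtain ⟨W, w0, w1⟩ : ∃ W : ℕ → {V : ℕ → Set M // (∀ i, IsOpen (V i)) ∧ ∀ p, ∃ i, p ∈ V i},
      (W 0).1 = (fun i => interior (N (c i))) ∧ ∀ j, (W (j + 1)).1 = F j (W j) :=
    ⟨fun j => j.rec ⟨_, fun _ => isOpen_interior, c1⟩ fun j V => ⟨F j V, f1 j V, f2 j V⟩, rfl,
      fun _ => rfl⟩
  have k : ∀ i l p, p ∈ interior (N (c l)) → p ∈ (W (l + 1)).1 i → p ∈ ⋂ j, (W j).1 i :=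
    fun i l p a b => mem_iInter.2 fun j => by
      rcases le_total j (l + 1) with h | h
      · exact antitone_nat_of_succ_le (f := fun j => (W j).1 i)
          (fun j => w1 j ▸ (f3 j _ i).1) h b
      · induction j, h using Nat.le_induction with
        | base => exact b
        | succ j h ih => exact w1 j ▸ (f3 j _ i).2 ⟨ih, fun d => d.2 (mem_biUnion h a)⟩
  refine ⟨e, fun i => N (c i), fun i => ⋂ j, (W j).1 i, fun i => ⟨n1 _, n3 _,
    isOpen_iff_mem_nhds.2 fun p h => ?_, (iInter_subset _ 0).trans (w0 ▸ interior_subset)⟩,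
    fun p => ?_⟩
  · obtain ⟨l, a⟩ := c1 p
    filter_upwards [isOpen_interior.mem_nhds a, ((W (l + 1)).2.1 i).mem_nhds (mem_iInter.1 h _)]
      using k i l
  · classical
    obtain ⟨i, b⟩ := (W (Nat.find (c1 p) + 1)).2.2 p
    obtain ⟨g, h⟩ := f4 (Nat.find (c1 p)) (W _) p ⟨interior_subset (Nat.find_spec (c1 p)), fun d =>
      (mem_iUnion₂.1 d).elim fun j ⟨x, y⟩ => Nat.find_min (c1 p) x y⟩
    exact ⟨⟨i, k i _ p (Nat.find_spec (c1 p)) b⟩, g, fun i d => h i (w1 _ ▸ mem_iInter.1 d _)⟩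

section
variable (e : ℕ → OpenPartialHomeomorph M (Fin n → ℝ)) (A V : ℕ → Set M)

def H (T : Set ℝ) : Set M := {p | ∃ i l, p ∈ V i ∧ e i p l ∈ T}

def G (Φ : Set ℝ) : Set M := {p | ∀ i l, p ∈ A i → e i p l ∉ Φ}

def J (O : Set M) (Φ : Set ℝ) (p q : M) : Prop := ∃ C, IsCompact C ∧ IsPreconnected C ∧ p ∈ C ∧
  q ∈ C ∧ C ⊆ O ∧ ∃ T : Set ℝ, T.Countable ∧ Disjoint T Φ ∧ C ⊆ H e V T

variable {e A V}

theorem den [LocallyCompactSpace M] (h : ∀ i, IsCompact (A i) ∧ A i ⊆ (e i).source) {Φ : Set ℝ}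
    (c : Φ.Countable) : Dense (G e A Φ) := by
  have := c.to_subtype
  refine (dense_iInter_of_isOpen (f := fun i : ℕ × Fin n × Φ =>
    (A i.1 ∩ (fun p => e i.1 p i.2.1) ⁻¹' {i.2.2.1})ᶜ) (fun i => ?_) fun i => ?_).mono
    fun p k i l a b => absurd ⟨a, rfl⟩ (mem_iInter.1 k (i, l, ⟨_, b⟩))
  · exact (((continuous_apply _).comp_continuousOn ((e _).continuousOn.mono
      (h _).2)).preimage_isClosed_of_isClosed (h _).1.isClosed isClosed_singleton).isOpen_compl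
  refine interior_eq_empty_iff_dense_compl.1 (eq_empty_of_forall_notMem fun p k => ?_)
  obtain ⟨ε, a, b⟩ := Metric.isOpen_iff.1 ((e i.1).isOpen_image_of_subset_source isOpen_interior
    (interior_subset.trans (inter_subset_left.trans (h _).2))) _ ⟨p, k, rfl⟩
  obtain ⟨q, x, y⟩ := b (show e i.1 p + (fun _ => ε / 2) ∈ _ by
    simp [pi_norm_lt_iff a, abs_of_pos, a])
  have u : e i.1 q i.2.1 = _ := (interior_subset x).2
  have v : e i.1 p i.2.1 = _ := (interior_subset k).2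
  rw [y, Pi.add_apply, v] at u
  linarith

theorem join [LocallyCompactSpace M] (hn : 1 < n)
    (h : ∀ i, IsCompact (A i) ∧ A i ⊆ (e i).source ∧ IsOpen (V i) ∧ V i ⊆ A i)
    (c : ∀ p, ∃ i, p ∈ V i) {Φ : Set ℝ} (hΦ : Φ.Countable) {O : Set M} (o : IsOpen O)
    (k : IsPreconnected O) {p q : M} (hp : p ∈ O) (hq : q ∈ O) (gp : p ∈ G e A Φ)
    (gq : q ∈ G e A Φ) : J e V O Φ p q := by
  have L : ∀ x ∈ O, ∃ N, IsOpen N ∧ x ∈ N ∧ ∀ p ∈ N, ∀ q ∈ N, p ∈ G e A Φ → q ∈ G e A Φ →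
      J e V O Φ p q := fun x hx => by
    obtain ⟨i, hi⟩ := c x
    have s := (h i).2.2.2.trans (h i).2.1
    obtain ⟨ε, a, b⟩ := Metric.isOpen_iff.1 ((e i).isOpen_image_of_subset_source
      (o.inter (h i).2.2.1) (inter_subset_right.trans s)) _ ⟨x, ⟨hx, hi⟩, rfl⟩
    have r : ∀ u ∈ ball (e i x) ε, (e i).symm u ∈ O ∩ V i ∧ e i ((e i).symm u) = u ∧
        u ∈ (e i).target := fun u hu => by
      obtain ⟨z, hz, rfl⟩ := b hu
      rw [(e i).left_inv (s hz.2)]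
      exact ⟨hz, rfl, (e i).map_source (s hz.2)⟩
    refine ⟨V i ∩ ((e i).source ∩ e i ⁻¹' ball (e i x) ε), (h i).2.2.1.inter
      ((e i).isOpen_inter_preimage isOpen_ball), ⟨hi, s hi, mem_ball_self a⟩,
      fun p ⟨p1, p2, p3⟩ q ⟨q1, q2, q3⟩ gp gq => ?_⟩
    let w := Function.update (e i p) ⟨0, by omega⟩ (e i q ⟨0, by omega⟩)
    have t : segment ℝ (e i p) w ∪ segment ℝ w (e i q) ⊆ ball (e i x) ε := by
      have : w ∈ ball (e i x) ε := (dist_pi_lt_iff a).2 fun l => by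
        simp only [w, Function.update_apply]
        split_ifs with d
        exacts [d ▸ (dist_pi_lt_iff a).1 q3 l, (dist_pi_lt_iff a).1 p3 l]
      exact union_subset ((convex_ball _ _).segment_subset p3 this)
        ((convex_ball _ _).segment_subset this q3)
    have z := (e i).continuousOn_symm.mono fun u hu => (r u (t hu)).2.2
    have y : ∀ u v : Fin n → ℝ, IsCompact (segment ℝ u v) := fun u v =>
      segment_eq_image ℝ u v ▸ isCompact_Icc.image (by fun_prop)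
    refine ⟨_, ((y _ _).union (y _ _)).image_of_continuousOn z,
      ((convex_segment _ _).isPreconnected.union w (right_mem_segment _ _ _) (left_mem_segment _ _ _)
        (convex_segment _ _).isPreconnected).image _ z,
      ⟨_, .inl (left_mem_segment _ _ _), (e i).left_inv p2⟩,
      ⟨_, .inr (right_mem_segment _ _ _), (e i).left_inv q2⟩,
      image_subset_iff.2 fun u hu => (r u (t hu)).1.1, {e i p ⟨1, hn⟩, e i q ⟨0, by omega⟩},
      toFinite _ |>.countable, disjoint_left.2 ?_, image_subset_iff.2 fun u hu => ?_⟩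
    · rintro _ (rfl | rfl)
      exacts [gp i _ ((h i).2.2.2 p1), gq i _ ((h i).2.2.2 q1)]
    · rcases id hu with ⟨a, b, -, -, d, f⟩ | ⟨a, b, -, -, d, f⟩
      · refine ⟨i, ⟨1, hn⟩, (r u (t hu)).1.2, .inl ?_⟩
        rw [(r u (t hu)).2.1, ← f]
        simp [w, ← add_mul, d]
      · refine ⟨i, ⟨0, by omega⟩, (r u (t hu)).1.2, .inr ?_⟩
        rw [(r u (t hu)).2.1, ← f]
        simp [w, ← add_mul, d]
  obtain ⟨N, a, K, b, d⟩ := k.induction₂' (fun x y => ∃ N ∈ 𝓝 x, ∃ K ∈ 𝓝 y, ∀ p ∈ N, ∀ q ∈ K,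
    p ∈ G e A Φ → q ∈ G e A Φ → J e V O Φ p q) (fun x hx => by
      obtain ⟨N, a, b, d⟩ := L x hx
      filter_upwards [nhdsWithin_le_nhds (a.mem_nhds b)] with y hy using
        ⟨⟨N, a.mem_nhds b, N, a.mem_nhds hy, d⟩, N, a.mem_nhds hy, N, a.mem_nhds b, d⟩)
    (fun x y z _ _ _ ⟨N, a, K, b, d⟩ ⟨N', a', K', b', d'⟩ => ⟨N, a, K', b', fun p u q v s t => by
      obtain ⟨r, x, y⟩ := (den (fun i => ⟨(h i).1, (h i).2.1⟩) hΦ).inter_nhds_nonempty
        (inter_mem b a')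
      obtain ⟨C, c1, c2, c3, c4, c5, T, c6, c7, c8⟩ := d p u r y.1 s x
      obtain ⟨D, d1, d2, d3, d4, d5, S, d6, d7, d8⟩ := d' r y.2 q v x t
      exact ⟨C ∪ D, c1.union d1, c2.union r c4 d3 d2, .inl c3, .inr d4, union_subset c5 d5, T ∪ S,
        c6.union d6, c7.union_left d7, union_subset
          (fun z k => (c8 k).imp fun _ => .imp fun _ => .imp_right .inl)
          fun z k => (d8 k).imp fun _ => .imp fun _ => .imp_right .inr⟩⟩) hp hq
  exact d p (mem_of_mem_nhds a) q (mem_of_mem_nhds b) gp gq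

end

end Pool.Agent.H.MP_39b482_gt
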