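import Mathlib
import Pool.Agent.H.MP_39b482_gt.A

set_option autoImplicit false

namespace Pool.Agent.H.MP_39b482_gt

open Set Topology Filter Metric

variable {n : ℕ} {M : Type} [TopologicalSpace M] [T2Space M] [LocallyCompactSpace M]

def Two (M : Type) [TopologicalSpace M] : Prop :=
  ∃ (Y : Type) (_ : TopologicalSpace Y), CompactSpace Y ∧ T2Space Y ∧
    ∃ f : M → Y, IsEmbedding f ∧ DenseRange f ∧ (range f)ᶜ.ncard = 2

theorem two [NormalSpace M] {K S : Set M} (k : IsCompact K) (a : IsOpen (Kᶜ ∩ S))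
    (b : IsOpen (Kᶜ ∩ Sᶜ)) (c : ∀ L, IsCompact L → ¬ Kᶜ ∩ S ⊆ L)
    (d : ∀ L, IsCompact L → ¬ Kᶜ ∩ Sᶜ ⊆ L) : Two M := by
  obtain ⟨L, l1, l2⟩ := exists_compact_superset k
  obtain ⟨g, g0, g1, g2⟩ := exists_continuous_zero_one_of_isClosed
    (s := (Kᶜ ∩ Sᶜ ∪ interior L)ᶜ) (t := (Kᶜ ∩ S ∪ interior L)ᶜ)
    (b.union isOpen_interior).isClosed_compl (a.union isOpen_interior).isClosed_compl
    (disjoint_left.2 fun p x y => by
      have : p ∉ K := fun h => x (.inr (l2 h))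
      exact x (.inl ⟨this, fun h => y (.inl ⟨this, h⟩)⟩))
  let f : M → OnePoint M × ℝ := fun p => (p, g p)
  have fc : Continuous f := OnePoint.continuous_coe.prodMk g.continuous
  have e : IsEmbedding f := .of_comp fc continuous_fst OnePoint.isOpenEmbedding_coe.isEmbedding
  have t : ∀ (S : Set M) r, EqOn g (fun _ => r) (Kᶜ ∩ Sᶜ ∪ interior L)ᶜ →
      (∀ L, IsCompact L → ¬ Kᶜ ∩ S ⊆ L) → (OnePoint.infty, r) ∈ closure (range f) :=
    fun S r x y => by
    have : (coclosedCompact M ⊓ 𝓟 (Kᶜ ∩ Sᶜ ∪ interior L)ᶜ).NeBot :=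
      inf_principal_neBot_iff.2 fun U u => by
        obtain ⟨N, ⟨-, a⟩, b⟩ := hasBasis_coclosedCompact.mem_iff.1 u
        obtain ⟨p, c, d⟩ := not_subset.1 (y _ (a.union l1))
        exact ⟨p, b fun h => d (.inl h), fun h => h.elim (fun h => h.2 c.2)
          fun h => d (.inr (interior_subset h))⟩
    exact mem_closure_of_tendsto (b := coclosedCompact M ⊓ 𝓟 _) (f := f)
      ((OnePoint.tendsto_coe_infty.mono_left inf_le_left).prodMk_nhds (tendsto_const_nhds.congr'
        (mem_inf_of_right x.symm))) (.of_forall mem_range_self)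
  refine ⟨closure (range f), inferInstance, isCompact_iff_compactSpace.1
    ((isCompact_univ.prod isCompact_Icc).of_isClosed_subset isClosed_closure (closure_minimal
      (range_subset_iff.2 fun p => ⟨trivial, g2 p⟩) (isClosed_univ.prod isClosed_Icc))),
    inferInstance, codRestrict f _ fun p => subset_closure ⟨p, rfl⟩, e.codRestrict _ _,
    fun z => closure_subtype.2 (by rw [← range_comp]; exact z.2), ncard_eq_two.2
      ⟨⟨_, t S 0 g0 c⟩, ⟨_, t Sᶜ 1 (by rwa [compl_compl]) d⟩,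
      fun h => by simpa using congrArg (·.1.2) h, subset_antisymm ?_ ?_⟩⟩
  · rintro ⟨⟨_ | p, r⟩, h⟩ k
    · have := closure_minimal (t := f '' L ∪ {z | z.2 = 0 ∨ z.2 = 1}) (range_subset_iff.2 fun p => by
        by_cases x : p ∈ L
        · exact .inl ⟨p, x, rfl⟩
        by_cases y : p ∈ S
        · exact .inr (.inl (g0 fun h => h.elim (fun h => h.2 y) fun h => x (interior_subset h)))
        · exact .inr (.inr (g1 fun h => h.elim (fun h => y h.2) fun h => x (interior_subset h))))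
        ((l1.image fc).isClosed.union ((isClosed_eq continuous_snd continuous_const).union
          (isClosed_eq continuous_snd continuous_const))) h
      rcases this with ⟨q, -, x⟩ | x | x
      · cases x
      exacts [.inl (Subtype.ext (Prod.ext rfl x)), .inr (Subtype.ext (Prod.ext rfl x))]
    · refine (k ⟨p, Subtype.ext (Prod.ext rfl (by_contra fun x => ?_))⟩).elim
      obtain ⟨_, ⟨q, y, z⟩, w, rfl⟩ := mem_closure_iff.1 h _
        ((OnePoint.isOpenMap_coe.prodMap IsOpenMap.id) {z : M × ℝ | g z.1 ≠ z.2}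
          (isOpen_ne_fun (by fun_prop) continuous_snd)) ⟨(p, r), x, rfl⟩
      obtain ⟨u, v⟩ := Prod.mk.inj z
      exact y ((congrArg g (OnePoint.coe_injective u)).trans v.symm)
  · rintro _ (rfl | rfl) ⟨p, h⟩ <;> cases h

theorem ends [NormalSpace M] [LocallyConnectedSpace M] (h : ¬ Two M) (X : CompactExhaustion M)
    (i : ℕ) : ∃ j, i ≤ j ∧ ∃ O, IsOpen O ∧ IsPreconnected O ∧ O ⊆ (X i)ᶜ ∧ (X j)ᶜ ⊆ O := by
  have k := X.isCompact i
  have o := k.isClosed.isOpen_compl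
  generalize hK : X i = K at *
  have s : ∀ {Z : Type} (r : Set M → Z) (S : Set Z),
      IsOpen (Kᶜ ∩ {p | r (connectedComponentIn Kᶜ p) ∈ S}) := fun r S =>
    isOpen_iff_mem_nhds.2 fun p a => mem_of_superset (connectedComponentIn_mem_nhds (o.mem_nhds a.1))
      fun q b => ⟨connectedComponentIn_subset _ _ b, by
        rw [mem_setOf, ← connectedComponentIn_eq b]; exact a.2⟩
  have t : ∀ {Z : Type} (r : Set M → Z) (S : Set Z), (∃ j, Kᶜ ∩ {p | r (connectedComponentIn Kᶜ p) ∈ S}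
      ⊆ X j) ∨ ∃ j, Kᶜ ∩ {p | r (connectedComponentIn Kᶜ p) ∈ Sᶜ} ⊆ X j := fun r S => by
    by_contra! c
    exact h (two k (s r S) (s r Sᶜ) (fun L l a => (X.exists_superset_of_isCompact l).elim
      fun j b => c.1 j (a.trans b)) fun L l a => (X.exists_superset_of_isCompact l).elim
      fun j b => c.2 j (a.trans b))
  have u : ∀ {j p}, p ∉ X (max i j) → p ∉ K ∧ p ∉ X j := fun a =>
    ⟨fun b => a (X.subset le_sup_left (hK ▸ b)), fun b => a (X.subset le_sup_right b)⟩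
  by_cases c : ∀ p ∉ K, ∃ j, connectedComponentIn Kᶜ p ⊆ X j
  · let r : Set M → ℕ := fun C => sInf {j | C ⊆ X j}
    have b : ∀ (T : Set ℕ) j, Kᶜ ∩ {p | r (connectedComponentIn Kᶜ p) ∈ T} ⊆ X j →
        T ∩ (fun p => r (connectedComponentIn Kᶜ p)) '' Kᶜ ⊆ Iic j := by
      rintro T j a _ ⟨x, p, y, rfl⟩
      exact Nat.sInf_le fun q z => a ⟨connectedComponentIn_subset _ _ z, by
        rwa [mem_setOf, ← connectedComponentIn_eq z]⟩
    by_cases f : ((fun p => r (connectedComponentIn Kᶜ p)) '' Kᶜ).Finite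
    · obtain ⟨j, hj⟩ := f.bddAbove
      exact ⟨max i j, le_sup_left, ∅, isOpen_empty, isPreconnected_empty, empty_subset _, fun p a =>
        (u a).2 (X.subset (hj ⟨p, (u a).1, rfl⟩) (Nat.sInf_mem (c p (u a).1)
          (mem_connectedComponentIn (u a).1)))⟩
    let v := fun m => (Set.Infinite.natEmbedding _ f m).1
    have w : Function.Injective v := Subtype.val_injective.comp (Set.Infinite.natEmbedding _ f).2
    rcases t r (range fun m => v (2 * m)) with ⟨j, a⟩ | ⟨j, a⟩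
    · exact (infinite_of_injective_forall_mem (f := fun m => v (2 * m)) (fun x y z => by
        have := w z; omega) (fun m => b _ j a ⟨⟨m, rfl⟩, (Set.Infinite.natEmbedding _ f _).2⟩)
        (finite_Iic j)).elim
    · exact (infinite_of_injective_forall_mem (f := fun m => v (2 * m + 1)) (fun x y z => by
        have := w z; omega) (fun m => b _ j a ⟨fun ⟨l, z⟩ => by have := w z; omega,
          (Set.Infinite.natEmbedding _ f _).2⟩) (finite_Iic j)).elim
  · push Not at c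
    obtain ⟨p, a, b⟩ := c
    rcases t id {connectedComponentIn Kᶜ p} with ⟨j, d⟩ | ⟨j, d⟩
    · exact (b j fun q z => d ⟨connectedComponentIn_subset _ _ z,
        (connectedComponentIn_eq z).symm⟩).elim
    · exact ⟨max i j, le_sup_left, _, o.connectedComponentIn, isPreconnected_connectedComponentIn,
        connectedComponentIn_subset _ p, fun q z => by_contra fun y => (u z).2 (d ⟨(u z).1,
          fun x => y ((show connectedComponentIn Kᶜ q = _ from x) ▸
            mem_connectedComponentIn (u z).1)⟩)⟩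

theorem build [NormalSpace M] [LocallyConnectedSpace M] [NoncompactSpace M] (h : ¬ Two M)
    (X : CompactExhaustion M) {e : ℕ → OpenPartialHomeomorph M (Fin n → ℝ)} {A V : ℕ → Set M}
    (hn : 1 < n) (a : ∀ i, IsCompact (A i) ∧ A i ⊆ (e i).source ∧ IsOpen (V i) ∧ V i ⊆ A i)
    (c : ∀ p, ∃ i, p ∈ V i) {U F : Set M} (u : IsOpen U) (f : IsClosed F) (s : F ⊆ U)
    {Φ : Set ℝ} (hΦ : Φ.Countable) : ∃ C : ℕ → Set M, (∀ i, IsCompact (C i) ∧ IsPreconnected (C i) ∧
      (C i ∩ C (i + 1)).Nonempty ∧ C i ⊆ (X i)ᶜ) ∧ (∃ m, F \ X m ⊆ ⋃ i, C i) ∧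
      ∃ T : Set ℝ, T.Countable ∧ Disjoint T Φ ∧ ⋃ i, C i ⊆ U ∪ H e V T := by
  choose ψ p1 O o1 o2 o3 o4 using ends h X
  have d := den (fun i => ⟨(a i).1, (a i).2.1⟩) hΦ
  choose b b1 b2 using fun i => d.inter_open_nonempty _ ((X.isCompact (ψ i)).union
    (X.isCompact (ψ (i - 1)))).isClosed.isOpen_compl (nonempty_compl.2
      (((X.isCompact _).union (X.isCompact _)).ne_univ))
  have j := fun i => @join _ _ _ _ _ _ _ _ hn a c _ hΦ _ (o1 i) (o2 i)
  have m : ∀ i, b i ∈ O i := fun i => o4 i fun x => b1 i (.inl x)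
  have : ∀ i, ∃ C, IsCompact C ∧ IsPreconnected C ∧ b i ∈ C ∧ C ⊆ O i ∧
      {b (i + 1)} ∪ ((F ∩ X (ψ (i + 1) + 1)) \ interior (X (ψ i + 1))) ⊆ C ∧
      ∃ T : Set ℝ, T.Countable ∧ Disjoint T Φ ∧ C ⊆ U ∪ H e V T := fun i => by
    have w : ∀ Q D, (∃ C, IsCompact C ∧ IsPreconnected C ∧ b i ∈ C ∧ C ⊆ O i ∧ Q ⊆ C ∧
        ∃ T : Set ℝ, T.Countable ∧ Disjoint T Φ ∧ C ⊆ U ∪ H e V T) → (∃ C, IsCompact C ∧
        IsPreconnected C ∧ b i ∈ C ∧ C ⊆ O i ∧ D ⊆ C ∧
        ∃ T : Set ℝ, T.Countable ∧ Disjoint T Φ ∧ C ⊆ U ∪ H e V T) → ∃ C, IsCompact C ∧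
        IsPreconnected C ∧ b i ∈ C ∧ C ⊆ O i ∧ Q ∪ D ⊆ C ∧
        ∃ T : Set ℝ, T.Countable ∧ Disjoint T Φ ∧ C ⊆ U ∪ H e V T :=
      fun Q R ⟨C, c1, c2, c3, c4, c5, T, c6, c7, c8⟩ ⟨D, d1, d2, d3, d4, d5, S, d6, d7, d8⟩ =>
      ⟨C ∪ D, c1.union d1, c2.union _ c3 d3 d2, .inl c3, union_subset c4 d4,
        union_subset_union c5 d5, T ∪ S, c6.union d6, c7.union_left d7, union_subset
          (fun z k => (c8 k).imp_right (.imp fun _ => .imp fun _ => .imp_right .inl))
          fun z k => (d8 k).imp_right (.imp fun _ => .imp fun _ => .imp_right .inr)⟩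
    obtain ⟨C, c1, c2, c3, c4, c5, T, c6, c7, c8⟩ := j i (m i) (o4 i fun x => b1 (i + 1) (.inr x))
      (b2 _) (b2 _)
    refine w _ _ ⟨C, c1, c2, c3, c5, singleton_subset_iff.2 c4, T, c6, c7, c8.trans
      subset_union_right⟩ ((((X.isCompact _).inter_left f).diff isOpen_interior).induction_on
      (p := fun Q => ∃ C, IsCompact C ∧ IsPreconnected C ∧ b i ∈ C ∧ C ⊆ O i ∧ Q ⊆ C ∧
        ∃ T : Set ℝ, T.Countable ∧ Disjoint T Φ ∧ C ⊆ U ∪ H e V T)
      ⟨C, c1, c2, c3, c5, empty_subset _, T, c6, c7, c8.trans subset_union_right⟩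
      (fun _ _ x ⟨C, c1, c2, c3, c4, c5, r⟩ => ⟨C, c1, c2, c3, c4, x.trans c5, r⟩)
      (fun _ _ => w _ _) fun x hx => ?_)
    obtain ⟨N, n1, n2, n3⟩ := exists_compact_subset (u.inter (o1 i)) (x := x)
      ⟨s hx.1.1, o4 i fun y => hx.2 (X.subset_interior_succ _ y)⟩
    have n4 := connectedComponentIn_mem_nhds (mem_interior_iff_mem_nhds.1 n2)
    have n5 := (closure_minimal (connectedComponentIn_subset N x) n1.isClosed)
    obtain ⟨r, x, y⟩ := d.inter_nhds_nonempty n4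
    obtain ⟨D, d1, d2, d3, d4, d5, S, d6, d7, d8⟩ := j i (m i) (n3 (n5 (subset_closure y))).2 (b2 _) x
    exact ⟨_, nhdsWithin_le_nhds n4, D ∪ closure _, d1.union (n1.of_isClosed_subset isClosed_closure n5),
      d2.union r d4 (subset_closure y) isPreconnected_connectedComponentIn.closure, .inl d3,
      union_subset d5 fun z k => (n3 (n5 k)).2, subset_closure.trans subset_union_right, S, d6, d7,
      union_subset (d8.trans subset_union_right) fun z k => .inl (n3 (n5 k)).1⟩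
  choose C c1 c2 c3 c4 c5 T c6 c7 c8 using this
  refine ⟨C, fun i => ⟨c1 i, c2 i, ⟨_, c5 i (.inl rfl), c3 _⟩, (c4 i).trans (o3 i)⟩,
    ⟨ψ 0 + 1, fun p x => ?_⟩, ⋃ i, T i, countable_iUnion c6, disjoint_iUnion_left.2 c7,
    iUnion_subset fun i z k => (c8 i k).imp_right
      (.imp fun _ => .imp fun _ => .imp_right (mem_iUnion_of_mem i))⟩
  classical
  have y : ∃ i, p ∈ X (ψ (i + 1) + 1) := (X.exists_mem p).imp fun i k =>
    X.subset (by have := p1 (i + 1); omega) k
  refine mem_iUnion_of_mem (Nat.find y) (c5 _ (.inr ⟨⟨x.1, Nat.find_spec y⟩, fun k => ?_⟩))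
  rcases z : Nat.find y with _ | i <;> rw [z] at k
  exacts [x.2 (interior_subset k), Nat.find_min y (z ▸ i.lt_succ_self) (interior_subset k)]

end Pool.Agent.H.MP_39b482_gt
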